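import Mathlib
import Pool.Agent.H67.Esq.NilMain

set_option autoImplicit false

/-!
# Growth at most `e^{√n}` forces the Zassenhaus Lie algebra to be nil
-/

namespace Pool.Agent.Results.MP_778c2f_al.NilZassenhaus

/-- The growth function: the number of elements of `G` which are products of at most `n`
elements of `S ∪ S⁻¹`. -/
noncomputable def growth {G : Type*} [Group G] (S : Finset G) (n : ℕ) : ℕ :=
  {g : G | ∃ l : List G, l.length ≤ n ∧ (∀ a ∈ l, a ∈ S ∨ a⁻¹ ∈ S) ∧ l.prod = g}.ncard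

/-- `D p G n = {g : g - 1 ∈ Δ^n}`, where `Δ` is the kernel of the augmentation map
`F_p[G] → F_p` (used for `n ≥ 1`): the `n`-th term of the Zassenhaus filtration. -/
def D (p : ℕ) (G : Type*) [Group G] (n : ℕ) : Set G :=
  {g | MonoidAlgebra.of (ZMod p) G g - 1 ∈
    LinearMap.ker (MonoidAlgebra.lift (ZMod p) (ZMod p) G 1).toLinearMap ^ n}

/-- `L_p(G) = ⊕ D_w / D_{w+1}` is nil: every homogeneous element `x D_{w+1}`, `x ∈ D_w`, is
ad-nilpotent, i.e. for some `N ≥ 1` the commutators `[u, x, ..., x]` (`N` times) with `u ∈ D_i`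
lie in `D_{i + wN + 1}`, for all `i ≥ 1`. -/
def ZassenhausNil (p : ℕ) (G : Type*) [Group G] : Prop :=
  ∀ w : ℕ, 1 ≤ w → ∀ x ∈ D p G w, ∃ N : ℕ, 1 ≤ N ∧ ∀ i : ℕ, 1 ≤ i → ∀ u ∈ D p G i,
    (fun v => v * x * v⁻¹ * x⁻¹)^[N] u ∈ D p G (i + w * N + 1)

lemma ker_pow (p : ℕ) [Fact p.Prime] (G : Type*) [Group G] (n : ℕ) :
    LinearMap.ker (MonoidAlgebra.lift (ZMod p) (ZMod p) G 1).toLinearMap ^ (n + 1) =
      Pool.H67.Esq.augPow p G (n + 1) := by
  induction n with
  | zero =>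
    rw [zero_add, pow_one]
    refine le_antisymm Pool.H67.Esq.augIdeal_le ?_
    show Pool.H67.Esq.augIdeal p G * ⊤ ≤ Pool.H67.Esq.augIdeal p G
    rw [Submodule.mul_le]
    intro a ha b _
    rw [Pool.H67.Esq.mem_augIdeal] at ha ⊢
    rw [map_mul, ha, zero_mul]
  | succ n ih =>
    rw [pow_succ', ih]
    rfl

lemma mem_D (p : ℕ) [Fact p.Prime] (G : Type*) [Group G] (n : ℕ) (hn : 1 ≤ n) (g : G) :
    g ∈ D p G n ↔ g ∈ Pool.H67.Esq.dimSub p G n := by
  obtain ⟨m, rfl⟩ : ∃ m, n = m + 1 := ⟨n - 1, by omega⟩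
  rw [Pool.H67.Esq.mem_dimSub, ← ker_pow]
  rfl

lemma iter_eq {G : Type*} [Group G] (u x : G) (N : ℕ) :
    (fun v => v * x * v⁻¹ * x⁻¹)^[N] u = Pool.H67.Esq.iterComm u x N := by
  induction N with
  | zero => rfl
  | succ N ih =>
    rw [Function.iterate_succ_apply', ih]
    rfl

lemma nil_iff (p : ℕ) [Fact p.Prime] (G : Type*) [Group G] :
    ZassenhausNil p G ↔ Pool.H67.Esq.ZassenhausNil p G := by
  unfold ZassenhausNil Pool.H67.Esq.ZassenhausNil
  refine forall_congr' fun w => imp_congr_right fun hw => forall_congr' fun x => ?_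
  rw [mem_D p G w hw]
  refine imp_congr_right fun _ => exists_congr fun N => and_congr_right fun _ =>
    forall_congr' fun i => imp_congr_right fun hi => forall_congr' fun u => ?_
  rw [mem_D p G i hi, mem_D p G _ (by omega), iter_eq]

/-- **Theorem.** Let `G` be generated by the finite set `S` and let `p` be a prime. If the
Zassenhaus Lie algebra `L_p(G)` is not nil, then the growth of `G` is at least
`exp (c √(n log n))`. In particular, if `γ_G ≼ e^{√n}`, then `L_p(G)` is nil for every `p`. -/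
theorem result {G : Type*} [Group G] (S : Finset G)
    (hS : Subgroup.closure (S : Set G) = ⊤) (p : ℕ) [Fact p.Prime] :
    (¬ ZassenhausNil p G → ∃ c : ℝ, 0 < c ∧ ∀ n : ℕ, 2 ≤ n →
      Real.exp (c * Real.sqrt ((n : ℝ) * Real.log n)) ≤ growth S n) ∧
    ((∃ C : ℝ, 1 ≤ C ∧ ∀ n : ℕ, (growth S n : ℝ) ≤ Real.exp (Real.sqrt (C * n))) →
      ZassenhausNil p G) := by
  rw [nil_iff]
  exact Pool.H67.Esq.nil_main S hS p

end Pool.Agent.Results.MP_778c2f_al.NilZassenhaus
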