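import Mathlib
import Pool.Agent.H45.RN.D

set_option autoImplicit false

/-!
# Growth `e^√n`: residually nilpotent groups reduce to residually finite-`p` groups
-/

namespace Pool.Agent.Results.MP_778c2f_al.ResidualReduction

/-- The growth function: the number of elements of `G` which are products of at most `n`
elements of `S ∪ S⁻¹`. -/
noncomputable def growth {G : Type} [Group G] (S : Finset G) (n : ℕ) : ℕ :=
  {g : G | ∃ l : List G, l.length ≤ n ∧ (∀ a ∈ l, a ∈ S ∨ a⁻¹ ∈ S) ∧ l.prod = g}.ncard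

/-- `H` is torsion-free. -/
def TFree (H : Type) [Group H] : Prop := ∀ h : H, ∀ n : ℕ, 1 ≤ n → h ^ n = 1 → h = 1

/-- Every `g ≠ 1` has a nontrivial image under some homomorphism to a nilpotent group. -/
def ResNilpotent (G : Type) [Group G] : Prop :=
  ∀ g : G, g ≠ 1 → ∃ (H : Type) (_ : Group H) (φ : G →* H), Group.IsNilpotent H ∧ φ g ≠ 1

/-- Every `g ≠ 1` has a nontrivial image under some homomorphism to a finite `p`-group. -/
def ResFiniteP (p : ℕ) (G : Type) [Group G] : Prop :=
  ∀ g : G, g ≠ 1 → ∃ (H : Type) (_ : Group H) (φ : G →* H), Finite H ∧ IsPGroup p H ∧ φ g ≠ 1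

/-- The growth is at most `exp (√(C n))` for some `C ≥ 1`. -/
def AtMostExpSqrt {G : Type} [Group G] (S : Finset G) : Prop :=
  ∃ C : ℝ, 1 ≤ C ∧ ∀ n : ℕ, (growth S n : ℝ) ≤ Real.exp (Real.sqrt (C * n))

/-- **Theorem.** (1) Let `G` be residually nilpotent, generated by the finite set `S`. Either the
growth of `G` is at least `exp (c √(n log n))`, or `G` embeds in the product of a torsion-free
nilpotent quotient `G ⧸ T` and finitely many residually finite-`p` quotients `G ⧸ N p`.
(2) If the growth of such a `G` is at most `exp (√(C n))` and `G` is not virtually nilpotent, then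
for some prime `p` it has a residually finite-`p` quotient which is not virtually nilpotent.
(3) So such a group exists iff, for some prime `p`, there is a residually finite-`p` one. -/
theorem result :
    (∀ (G : Type) [Group G] (S : Finset G), Subgroup.closure (S : Set G) = ⊤ → ResNilpotent G →
      (∃ c : ℝ, 0 < c ∧ ∀ n : ℕ, 2 ≤ n →
        Real.exp (c * Real.sqrt ((n : ℝ) * Real.log n)) ≤ growth S n) ∨
      ∃ (T : Subgroup G) (_ : T.Normal) (P : Finset ℕ) (N : ℕ → Subgroup G)
        (_ : ∀ p, (N p).Normal), Group.IsNilpotent (G ⧸ T) ∧ TFree (G ⧸ T) ∧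
        (∀ p ∈ P, p.Prime ∧ ResFiniteP p (G ⧸ N p)) ∧ T ⊓ (⨅ p ∈ P, N p) = ⊥) ∧
    (∀ (G : Type) [Group G] (S : Finset G), Subgroup.closure (S : Set G) = ⊤ → ResNilpotent G →
      AtMostExpSqrt S → ¬ Group.IsVirtuallyNilpotent G →
      ∃ (p : ℕ) (N : Subgroup G) (_ : N.Normal), p.Prime ∧ ResFiniteP p (G ⧸ N) ∧
        ¬ Group.IsVirtuallyNilpotent (G ⧸ N)) ∧
    ((∃ (G : Type) (_ : Group G) (S : Finset G), Subgroup.closure (S : Set G) = ⊤ ∧
        ResNilpotent G ∧ AtMostExpSqrt S ∧ ¬ Group.IsVirtuallyNilpotent G) ↔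
      ∃ p : ℕ, p.Prime ∧ ∃ (G : Type) (_ : Group G) (S : Finset G),
        Subgroup.closure (S : Set G) = ⊤ ∧ ResFiniteP p G ∧ AtMostExpSqrt S ∧
        ¬ Group.IsVirtuallyNilpotent G) :=
  ⟨fun _ _ S hS hR => Pool.H45.RN.dichotomy S hS hR,
    fun _ _ S hS hR hC hv => Pool.H45.RN.quotient_case S hS hR hC hv,
    Pool.H45.RN.equivalence⟩

end Pool.Agent.Results.MP_778c2f_al.ResidualReduction
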