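import Mathlib
import Pool.Agent.H67.Esq.TF.TFMain

set_option autoImplicit false

/-!
# Growth of groups with torsion-free nilpotent quotients of unbounded class
-/

namespace Pool.Agent.Results.MP_778c2f_al.TorsionFreeNilpotent

/-- The growth function: the number of elements of `G` which are products of at most `n`
elements of `S ∪ S⁻¹`. -/
noncomputable def growth {G : Type*} [Group G] (S : Finset G) (n : ℕ) : ℕ :=
  {g : G | ∃ l : List G, l.length ≤ n ∧ (∀ a ∈ l, a ∈ S ∨ a⁻¹ ∈ S) ∧ l.prod = g}.ncard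

/-- `H` is torsion-free. -/
def TFree (H : Type*) [Group H] : Prop := ∀ h : H, ∀ n : ℕ, 1 ≤ n → h ^ n = 1 → h = 1

/-- `G` is residually torsion-free nilpotent: every `g ≠ 1` survives in some torsion-free
nilpotent quotient of `G`. -/
def ResTorsionFreeNilpotent (G : Type*) [Group G] : Prop :=
  ∀ g : G, g ≠ 1 → ∃ (N : Subgroup G) (_ : N.Normal), g ∉ N ∧ Group.IsNilpotent (G ⧸ N) ∧
    TFree (G ⧸ N)

/-- the torsion-free nilpotent quotients of `G` have unbounded nilpotency class. -/
def UnboundedTorsionFreeClass (G : Type*) [Group G] : Prop :=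
  ∀ c : ℕ, ∃ (N : Subgroup G) (_ : N.Normal), Group.IsNilpotent (G ⧸ N) ∧ TFree (G ⧸ N) ∧
    c ≤ Group.nilpotencyClass (G ⧸ N)

/-- **Theorem.** Let `G` be generated by the finite set `S`. If the torsion-free nilpotent
quotients of `G` have unbounded class, then the growth of `G` is at least `exp (c √(n log n))`.
In particular, a residually torsion-free nilpotent group `G` with growth at most `exp (√(C n))`
is nilpotent. -/
theorem result {G : Type*} [Group G] (S : Finset G)
    (hS : Subgroup.closure (S : Set G) = ⊤) :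
    (UnboundedTorsionFreeClass G → ∃ c : ℝ, 0 < c ∧ ∀ n : ℕ, 2 ≤ n →
      Real.exp (c * Real.sqrt ((n : ℝ) * Real.log n)) ≤ growth S n) ∧
    (ResTorsionFreeNilpotent G →
      (∃ C : ℝ, 1 ≤ C ∧ ∀ n : ℕ, (growth S n : ℝ) ≤ Real.exp (Real.sqrt (C * n))) →
      Group.IsNilpotent G) :=
  Pool.H67.Esq.TF.tf_main S hS

end Pool.Agent.Results.MP_778c2f_al.TorsionFreeNilpotent
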